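import Pool.Agent.H.MP_f48be4_an.C

open Filter Topology Set Complex Metric MeasureTheory

namespace Pool.Agent.Results.MP_f48be4_an.NoAbel

/-- inner function of the unit disc -/
def Inner (f : ℂ → ℂ) : Prop :=
  DifferentiableOn ℂ f (ball 0 1) ∧ MapsTo f (ball 0 1) (ball 0 1) ∧
    ∀ᵐ θ : ℝ, ∃ L : ℂ, ‖L‖ = 1 ∧ Tendsto (fun r : ℝ => f (r * exp (θ * I))) (𝓝[<] 1) (𝓝 L)

theorem result : ∃ (f : ℂ → ℂ) (a : ℕ → ℂ) (F : ℂ → ℂ) (ξ : ℂ) (v : ℕ → ℂ),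
    Inner f ∧ f 0 = 0 ∧ (¬ ∃ l : ℂ, ‖l‖ = 1 ∧ ∀ z ∈ ball (0:ℂ) 1, f z = l * z) ∧
    DifferentiableOn ℂ F (ball 0 1) ∧
    (∀ z ∈ ball (0:ℂ) 1, HasSum (fun n => a n * f^[n + 1] z) (F z)) ∧
    ‖ξ‖ = 1 ∧ (∀ n, Tendsto (fun r : ℝ => f^[n + 1] (r * ξ)) (𝓝[<] 1) (𝓝 (v n))) ∧
    (∃ S : ℂ, Tendsto (fun N => ∑ n ∈ Finset.range N, a n * v n) atTop (𝓝 S)) ∧
    ¬ ∃ L : ℂ, Tendsto (fun r : ℝ => F (r * ξ)) (𝓝[<] 1) (𝓝 L) := by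
  obtain ⟨s, hs⟩ := H.MP_f48be4_an.main
  refine ⟨H.MP_f48be4_an.f, fun n => s n - s (n + 1),
    fun z => ∑' n, (s n - s (n + 1)) * H.MP_f48be4_an.f^[n + 1] z, 1, fun _ => 1,
    ⟨H.MP_f48be4_an.f_don, fun z hz => mem_ball_zero_iff.2
      (H.MP_f48be4_an.f_lt (mem_ball_zero_iff.1 hz)), H.MP_f48be4_an.f_inner⟩,
    H.MP_f48be4_an.f_zero, H.MP_f48be4_an.not_rot,
    H.MP_f48be4_an.F_diff (H.MP_f48be4_an.dif_le s), fun z hz =>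
      (H.MP_f48be4_an.sum_s (H.MP_f48be4_an.it_sum (mem_ball_zero_iff.1 hz)) s).of_norm.hasSum,
    norm_one, fun n => by simpa using H.MP_f48be4_an.radial n, ⟨s 0 - 0, ?_⟩, by simpa using hs⟩
  have h := s.zero_at_infty'
  rw [cocompact_eq_cofinite, Nat.cofinite_eq_atTop] at h
  simp only [mul_one, Finset.sum_range_sub']
  exact tendsto_const_nhds.sub h

end Pool.Agent.Results.MP_f48be4_an.NoAbel
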